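import Pool.Agent.helper75.AU.SpecR

set_option linter.unusedVariables false

namespace Pool.Agent.helper75.AU

open scoped Classical
open Pool.Agent.helper53.AU MulAction

theorem T4_sum {G X : Type} [Group G] [Fintype G] [MulAction G X] [Fintype X] (f : X → ℤ)
    (inv : ∀ (a : G) (z : X), f (a • z) = f z) (nn : ∀ z, 0 ≤ f z) {n : ℕ} (p : Fin n → X)
    (hp : ∀ i j, i ≠ j → ∀ a : G, a • p i ≠ p j) :
    ∑ i, (oo G (p i) : ℤ) * f (p i) ≤ ∑ x, f x ∧
    ((∀ x, f x ≠ 0 → ∃ i, x ∈ orbit G (p i)) → ∑ x, f x = ∑ i, (oo G (p i) : ℤ) * f (p i)) := by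
  have h1 : ∀ i, (oo G (p i) : ℤ) * f (p i) =
      ∑ x ∈ Finset.univ.filter (fun x => x ∈ orbit G (p i)), f x := by
    intro i
    rw [Finset.sum_congr rfl (g := fun _ => f (p i))]
    · rw [Finset.sum_const, nsmul_eq_mul]
      congr 1
      simp [oo, Nat.card_eq_fintype_card, Fintype.card_subtype]
    · rintro x hx
      simp only [Finset.mem_filter, Finset.mem_univ, true_and] at hx
      obtain ⟨a, rfl⟩ := hx
      exact inv a _
  have h3 : ∑ i, (oo G (p i) : ℤ) * f (p i) =
      ∑ x ∈ (Finset.univ : Finset (Fin n)).biUnion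
        (fun i => Finset.univ.filter (fun x => x ∈ orbit G (p i))), f x := by
    rw [Finset.sum_biUnion]
    · exact Finset.sum_congr rfl (fun i _ => h1 i)
    · intro i _ j _ hij
      refine Finset.disjoint_left.2 ?_
      intro x hx hx'
      simp only [Finset.mem_filter, Finset.mem_univ, true_and] at hx hx'
      obtain ⟨a, ha⟩ := hx
      obtain ⟨b, hb⟩ := hx'
      refine hp i j hij (b⁻¹ * a) ?_
      simp only at ha hb
      rw [mul_smul, ha, ← hb, inv_smul_smul]
  constructor
  · rw [h3]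
    exact Finset.sum_le_sum_of_subset_of_nonneg (Finset.subset_univ _) (fun i _ _ => nn i)
  · intro hc
    rw [h3]
    symm
    refine Finset.sum_subset (Finset.subset_univ _) ?_
    intro x _ hx
    by_contra h
    obtain ⟨i, hi⟩ := hc x h
    exact hx (Finset.mem_biUnion.2 ⟨i, Finset.mem_univ _, by simpa using hi⟩)

/-- the facts about the different exponents -/
structure T4_F {k G X : Type} [Field k] [Group G] [Fintype G] [MulAction G X] [Fintype X]
    {l : ℕ} (R : Ram k G X (l + 1)) (f : X → ℤ) : Prop where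
  inv : ∀ (a : G) (z : X), f (a • z) = f z
  nn : ∀ z, 0 ≤ f z
  z0 : ∀ x, f x ≠ 0 → stabilizer G x ≠ ⊥
  val : ∀ x, (oo G x : ℤ) * f x = Nat.card G + oo G x * R.T x - oo G x
  tot : ∃ γ : ℕ, 2 * (l : ℤ) = Nat.card G * (2 * (γ : ℤ) - 2) + ∑ x, f x
  opos : ∀ x : X, 0 < oo G x
  tame : ∀ x, R.P x = ⊥ → R.T x = 0
  tame2 : ∀ x, R.P x = ⊥ → stabilizer G x ≠ ⊥ → 2 * oo G x = Nat.card G ∨ 4 * oo G x ≤ Nat.card G
  two : ∀ x, R.P x = ⊥ → 2 * oo G x = Nat.card G → Nat.card (stabilizer G x) = 2
  wild : ∀ x, R.P x ≠ ⊥ → 2 ≤ R.T x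
  wild0 : ∀ x, R.P x ≠ ⊥ → stabilizer G x ≠ ⊥

theorem T4_f (b1 : BA1_stmt) (b3 : BA3_stmt) (b4 : BA4_stmt)
    {k G X : Type} [Field k] [CharP k 3] [Group G] [Fintype G] [MulAction G X] [Fintype X]
    {l : ℕ} (R : Ram k G X (l + 1)) : ∃ f : X → ℤ, T4_F R f := by
  have hT : ∀ x, TS R ⊤ x = R.T x := fun x => (b3 k G X (l + 1) R x ⊤).2.2.2.1 le_top
  have hd : ∀ x, R.d ⊤ x + 1 = Nat.card (stabilizer G x) + R.T x := by
    intro x
    have := (b3 k G X (l + 1) R x ⊤).2.2.1
    rw [hT, top_inf_eq] at this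
    exact this
  have hPle : ∀ x, R.P x ≤ stabilizer G x := by
    intro x s hs
    exact ((b1 k G X (l + 1) R x).2.1 s).1 hs |>.1
  have hb4 := (b4 G X).1
  have ht0 : ∀ x, R.P x = ⊥ → R.T x = 0 := by
    intro x hx
    have := (b3 k G X (l + 1) R x ⊤).2.2.2.2.2.1 (by rw [hx]; simp)
    rw [hT] at this
    exact this
  have htame : ∀ x, R.P x = ⊥ → ¬ 3 ∣ Nat.card (stabilizer G x) := by
    intro x hx
    obtain ⟨_, _, _, _, _, _, h7, h8, _⟩ := b1 k G X (l + 1) R x
    rw [h7]
    have : qq R x = 1 := by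
      unfold qq
      rw [hx]
      simp
    rw [this, one_mul]
    exact h8
  refine ⟨fun x => R.d ⊤ x, ?_, ?_, ?_, ?_, ?_, ?_, ht0, ?_, ?_, ?_, ?_⟩
  · intro a z
    have := ((b3 k G X (l + 1) R z ⊤).2.2.2.2.2.2.2.1 a (by simp)).1
    exact_mod_cast this
  · intro z
    exact_mod_cast Nat.zero_le _
  · intro x hx hx'
    apply hx
    have := (b3 k G X (l + 1) R x ⊤).2.2.2.2.2.2.1 (by rw [hx']; simp)
    simp [this]
  · intro x
    have h1 := hd x
    have h2 := hb4 x
    have h3 : (R.d ⊤ x : ℤ) = Nat.card (stabilizer G x) + R.T x - 1 := by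
      zify at h1
      linarith
    rw [h3]
    zify at h2
    rw [← h2]
    ring
  · obtain ⟨γ, hγ⟩ := R.RH ⊤
    refine ⟨γ, ?_⟩
    have e1 : (Nat.card (⊤ : Subgroup G) : ℤ) = Nat.card G := by
      rw [Subgroup.card_top]
    rw [e1] at hγ
    have e2 : ∀ x : X, (∑ s ∈ Finset.univ.filter (fun s : G => s ∈ (⊤ : Subgroup G) ∧ s ≠ 1 ∧ s • x = x),
        ((R.i x s : ℤ) + 1)) = (R.d ⊤ x : ℤ) := by
      intro x
      simp [Ram.d]
    simp only [e2] at hγ
    push_cast at hγ
    linarith
  · intro x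
    unfold oo
    have : Nonempty (orbit G x) := ⟨⟨x, mem_orbit_self x⟩⟩
    exact Nat.card_pos
  · intro x hx hs
    have h1 := htame x hx
    have h2 := hb4 x
    have h3 : Nat.card (stabilizer G x) ≠ 1 := by
      intro h
      exact hs (Subgroup.card_eq_one.1 h)
    have h4 : 0 < Nat.card (stabilizer G x) := Nat.card_pos
    generalize Nat.card (stabilizer G x) = e at *
    by_cases h5 : e = 2
    · subst h5
      left
      linarith
    · right
      have h6 : 4 ≤ e := by
        by_contra h7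
        interval_cases e <;> omega
      rw [← h2]
      nlinarith [Nat.zero_le (oo G x)]
  · intro x hx ho
    have h2 := hb4 x
    have h0 : 0 < oo G x := by
      unfold oo
      have : Nonempty (orbit G x) := ⟨⟨x, mem_orbit_self x⟩⟩
      exact Nat.card_pos
    rw [← ho, mul_comm] at h2
    exact Nat.eq_of_mul_eq_mul_right h0 h2
  · intro x hx
    obtain ⟨_, _, _, _, _, _, _, _, h9, h10⟩ := b3 k G X (l + 1) R x ⊤
    obtain ⟨m, hm⟩ := (b1 k G X (l + 1) R x).2.2.2.2.2.2.2.2.1
    have h1 : qq R x ≠ 1 := by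
      intro h
      exact hx (Subgroup.card_eq_one.1 h)
    have h3 : 3 ≤ qq R x := by
      rw [hm]
      rcases m with _ | m
      · rw [hm] at h1
        simp at h1
      · rw [pow_succ]
        have : 0 < 3 ^ m := by positivity
        omega
    omega
  · intro x hx hs
    apply hx
    rw [eq_bot_iff, ← hs]
    exact hPle x

theorem T4 (b1 : BA1_stmt) (b3 : BA3_stmt) (b4 : BA4_stmt) (f1 : F1_stmt) : T4_stmt := by
  intro k G X _ _ _ _ _ _ l R z hl hz hN
  obtain ⟨f, F⟩ := T4_f b1 b3 b4 R
  obtain ⟨γ, hγ⟩ := F.tot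
  have hlpos : 1000 < l := hl.large
  have hNpos : 0 < Nat.card G := Nat.card_pos
  have nt : ∀ x, stabilizer G x ≠ ⊥ → (Nat.card G : ℤ) ≤ 2 * (oo G x * f x) := by
    intro x hx
    by_cases hP : R.P x = ⊥
    · have h1 := F.tame x hP
      have h2 := F.tame2 x hP hx
      rw [F.val, h1]
      push_cast
      omega
    · have h1 := F.wild x hP
      have h3 : (oo G x : ℤ) * 2 ≤ oo G x * R.T x := by
        have : (2 : ℤ) ≤ R.T x := by exact_mod_cast h1
        exact mul_le_mul_of_nonneg_left this (by positivity)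
      have h4 := F.opos x
      rw [F.val]
      omega
  have wd : ∀ x, R.P x ≠ ⊥ → (Nat.card G : ℤ) < oo G x * f x := by
    intro x hP
    have h1 := F.wild x hP
    have h3 : (oo G x : ℤ) * 2 ≤ oo G x * R.T x := by
      have : (2 : ℤ) ≤ R.T x := by exact_mod_cast h1
      exact mul_le_mul_of_nonneg_left this (by positivity)
    have h4 := F.opos x
    rw [F.val]
    omega
  have ttot : ∀ {n : ℕ} (p : Fin n → X), (∀ i j, i ≠ j → ∀ a : G, a • p i ≠ p j) →
      ∑ i, (oo G (p i) : ℤ) * f (p i) ≤ ∑ x, f x ∧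
      ((∀ x, stabilizer G x ≠ ⊥ → ∃ i, x ∈ orbit G (p i)) →
        ∑ x, f x = ∑ i, (oo G (p i) : ℤ) * f (p i)) := by
    intro n p hp
    obtain ⟨h1, h2⟩ := T4_sum f F.inv F.nn p hp
    exact ⟨h1, fun h => h2 (fun x hx => h x (F.z0 x hx))⟩
  have sym : ∀ {a b : X}, (∀ c : G, c • a ≠ b) → ∀ c : G, c • b ≠ a := by
    intro a b h c hc
    exact h c⁻¹ (by rw [← hc, inv_smul_smul])
  have orb : ∀ {a b : X}, b ∉ orbit G a → ∀ c : G, c • a ≠ b := by
    intro a b h c hc
    exact h ⟨c, hc⟩
  have hN' : 8 * ((l : ℤ) + 1) < Nat.card G := by exact_mod_cast hN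
  have hl' : (1000 : ℤ) < l := by exact_mod_cast hlpos
  have s1 : ∀ a : X, (oo G a : ℤ) * f a ≤ ∑ x, f x ∧
      ((∀ x, stabilizer G x ≠ ⊥ → x ∈ orbit G a) → ∑ x, f x = (oo G a : ℤ) * f a) := by
    intro a
    have := ttot (n := 1) ![a] (by
      intro i j hij
      exact absurd (Subsingleton.elim i j) hij)
    simpa [Fin.exists_fin_succ] using this
  have s2 : ∀ a b : X, (∀ c : G, c • a ≠ b) → (oo G a : ℤ) * f a + oo G b * f b ≤ ∑ x, f x ∧
      ((∀ x, stabilizer G x ≠ ⊥ → x ∈ orbit G a ∨ x ∈ orbit G b) →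
        ∑ x, f x = (oo G a : ℤ) * f a + oo G b * f b) := by
    intro a b hab
    have hba := sym hab
    have := ttot (n := 2) ![a, b] (by
      intro i j hij
      fin_cases i <;> fin_cases j <;> simp at hij ⊢ <;> assumption)
    simpa [Fin.sum_univ_succ] using this
  have s3 : ∀ a b c : X, (∀ v : G, v • a ≠ b) → (∀ v : G, v • a ≠ c) → (∀ v : G, v • b ≠ c) →
      (oo G a : ℤ) * f a + (oo G b * f b + oo G c * f c) ≤ ∑ x, f x ∧
      ((∀ x, stabilizer G x ≠ ⊥ → x ∈ orbit G a ∨ x ∈ orbit G b ∨ x ∈ orbit G c) →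
        ∑ x, f x = (oo G a : ℤ) * f a + (oo G b * f b + oo G c * f c)) := by
    intro a b c hab hac hbc
    have hba := sym hab
    have hca := sym hac
    have hcb := sym hbc
    have := ttot (n := 3) ![a, b, c] (by
      intro i j hij
      fin_cases i <;> fin_cases j <;> simp at hij ⊢ <;> assumption)
    simpa [Fin.sum_univ_succ, Fin.exists_fin_succ] using this
  have s4 : ∀ a b c d : X, (∀ v : G, v • a ≠ b) → (∀ v : G, v • a ≠ c) → (∀ v : G, v • b ≠ c) →
      (∀ v : G, v • a ≠ d) → (∀ v : G, v • b ≠ d) → (∀ v : G, v • c ≠ d) →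
      (oo G a : ℤ) * f a + (oo G b * f b + (oo G c * f c + oo G d * f d)) ≤ ∑ x, f x ∧
      ((∀ x, stabilizer G x ≠ ⊥ → x ∈ orbit G a ∨ x ∈ orbit G b ∨ x ∈ orbit G c ∨ x ∈ orbit G d) →
        ∑ x, f x = (oo G a : ℤ) * f a + (oo G b * f b + (oo G c * f c + oo G d * f d))) := by
    intro a b c d hab hac hbc had hbd hcd
    have hba := sym hab
    have hca := sym hac
    have hcb := sym hbc
    have hda := sym had
    have hdb := sym hbd
    have hdc := sym hcd
    have := ttot (n := 4) ![a, b, c, d] (by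
      intro i j hij
      fin_cases i <;> fin_cases j <;> simp at hij ⊢ <;> assumption)
    simpa [Fin.sum_univ_succ, Fin.exists_fin_succ] using this
  have s5 : ∀ a b c d e : X, (∀ v : G, v • a ≠ b) → (∀ v : G, v • a ≠ c) → (∀ v : G, v • b ≠ c) →
      (∀ v : G, v • a ≠ d) → (∀ v : G, v • b ≠ d) → (∀ v : G, v • c ≠ d) →
      (∀ v : G, v • a ≠ e) → (∀ v : G, v • b ≠ e) → (∀ v : G, v • c ≠ e) → (∀ v : G, v • d ≠ e) →
      (oo G a : ℤ) * f a + (oo G b * f b + (oo G c * f c + (oo G d * f d + oo G e * f e))) ≤ ∑ x, f x := by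
    intro a b c d e hab hac hbc had hbd hcd hae hbe hce hde
    have hba := sym hab
    have hca := sym hac
    have hcb := sym hbc
    have hda := sym had
    have hdb := sym hbd
    have hdc := sym hcd
    have hea := sym hae
    have heb := sym hbe
    have hec := sym hce
    have hed := sym hde
    have := (ttot (n := 5) ![a, b, c, d, e] (by
      intro i j hij
      fin_cases i <;> fin_cases j <;> simp at hij ⊢ <;> assumption)).1
    simpa [Fin.sum_univ_succ] using this
  -- genus zero
  have hγ0 : γ = 0 := by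
    by_contra hγ1
    have h1 : (1 : ℤ) ≤ γ := by
      have : 1 ≤ γ := Nat.one_le_iff_ne_zero.2 hγ1
      exact_mod_cast this
    by_cases hx : ∃ x : X, stabilizer G x ≠ ⊥
    · obtain ⟨x, hx⟩ := hx
      have h2 := nt x hx
      have h3 : (oo G x : ℤ) * f x ≤ ∑ x, f x := (s1 x).1
      have h4 : (0 : ℤ) ≤ Nat.card G * (2 * (γ : ℤ) - 2) :=
        mul_nonneg (by positivity) (by linarith)
      linarith
    · push Not at hx
      have h2 := (s1 z).2 (fun x h => absurd (hx x) h)
      have h3 : f z = 0 := by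
        by_contra h
        exact F.z0 z h hz
      rw [h3, mul_zero] at h2
      rw [h2, add_zero] at hγ
      rcases Nat.lt_or_ge γ 2 with h5 | h5
      · have : γ = 1 := by omega
        subst this
        simp at hγ
        omega
      · have h6 : (2 : ℤ) ≤ γ := by exact_mod_cast h5
        have h7 : (Nat.card G : ℤ) * 2 ≤ Nat.card G * (2 * (γ : ℤ) - 2) :=
          mul_le_mul_of_nonneg_left (by linarith) (by positivity)
        linarith
  have htot : ∑ x, f x = 2 * l + 2 * Nat.card G := by
    rw [hγ0] at hγ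
    push_cast at hγ
    linarith
  clear hγ hγ0
  by_cases hw : ∃ x, R.P x ≠ ⊥
  · -- wild
    obtain ⟨x, hxw, S, hS⟩ : ∃ x, R.P x ≠ ⊥ ∧ ∃ S : Sylow 3 G, (S : Subgroup G) = R.P x := by
      obtain ⟨x₀, hx₀⟩ := hw
      obtain ⟨S⟩ : Nonempty (Sylow 3 G) := inferInstance
      have hS : (S : Subgroup G) ≠ ⊥ := by
        intro hS
        have h1 := (b1 k G X (l + 1) R x₀).1
        obtain ⟨S', hS'⟩ := h1.exists_le_sylow
        have h2 : Nat.card (S' : Subgroup G) = Nat.card (S : Subgroup G) :=
          Nat.card_congr (S'.equiv S).toEquiv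
        rw [hS, Subgroup.card_bot] at h2
        rw [Subgroup.card_eq_one.1 h2] at hS'
        exact hx₀ (le_bot_iff.1 hS')
      obtain ⟨_, x, x', _, hx, _, hc, _⟩ := f1 k G X l R S hl.mod3 S.isPGroup' hS
      refine ⟨x, ?_, S, ?_⟩
      · obtain ⟨s, hs, hs1, _⟩ := hc
        intro h
        rw [h] at hs
        exact hs1 (Subgroup.mem_bot.1 hs)
      · refine (S.is_maximal' (b1 k G X (l + 1) R x).1 ?_).symm
        intro s hs
        refine (b1 k G X (l + 1) R x).2.2.1 s (hx s hs) ?_
        obtain ⟨n, hn⟩ := S.isPGroup' ⟨s, hs⟩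
        exact ⟨n, by simpa using congrArg Subtype.val hn⟩
    have hx1 := wd x hxw
    have hxnt := F.wild0 x hxw
    by_cases hy : ∃ y : X, stabilizer G y ≠ ⊥ ∧ y ∉ orbit G x
    · by_cases hyw : ∃ y, R.P y ≠ ⊥ ∧ y ∉ orbit G x
      · -- (C)
        left
        obtain ⟨y, hy1, hy2⟩ := hyw
        have hy3 := wd y hy1
        have cov : ∀ v : X, stabilizer G v ≠ ⊥ → v ∈ orbit G x ∨ v ∈ orbit G y := by
          intro v hv
          by_contra hcon
          push Not at hcon
          have h1 := (s3 x y v (orb hy2) (orb hcon.1) (orb hcon.2)).1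
          have h2 := nt v hv
          linarith
        refine ⟨x, y, hxw, ⟨S, hS⟩, orb hy2, cov, ?_⟩
        have h1 := (s2 x y (orb hy2)).2 cov
        rw [F.val, F.val, htot] at h1
        zify
        linarith
      · push Not at hyw
        obtain ⟨y, hy1, hy2⟩ := hy
        have hyt : R.P y = ⊥ := by
          by_contra h
          exact hy2 (hyw y h)
        by_cases hy' : ∃ y', stabilizer G y' ≠ ⊥ ∧ y' ∉ orbit G x ∧ y' ∉ orbit G y
        · -- (D)
          right
          left
          obtain ⟨y', hy'1, hy'2, hy'3⟩ := hy'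
          have hyt' : R.P y' = ⊥ := by
            by_contra h
            exact hy'2 (hyw y' h)
          have cov : ∀ v : X, stabilizer G v ≠ ⊥ → v ∈ orbit G x ∨ v ∈ orbit G y ∨ v ∈ orbit G y' := by
            intro v hv
            by_contra hcon
            push Not at hcon
            have h1 := (s4 x y y' v (orb hy2) (orb hy'2) (orb hy'3) (orb hcon.1) (orb hcon.2.1)
              (orb hcon.2.2)).1
            have h2 := nt v hv
            have h3 := nt y hy1
            have h4 := nt y' hy'1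
            linarith
          have h1 := (s3 x y y' (orb hy2) (orb hy'2) (orb hy'3)).2 cov
          rw [htot, F.val x, F.val y, F.val y', F.tame y hyt, F.tame y' hyt'] at h1
          push_cast at h1
          have hxv := F.val x
          have h5 := F.tame2 y hyt hy1
          have h6 := F.tame2 y' hyt' hy'1
          have h7 : 2 * oo G y = Nat.card G ∧ 2 * oo G y' = Nat.card G := by
            zify at h5 h6 ⊢
            rw [hxv] at hx1
            rcases h5 with h5 | h5 <;> rcases h6 with h6 | h6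
            · exact ⟨h5, h6⟩
            · exfalso; linarith
            · exfalso; linarith
            · exfalso; linarith
          refine ⟨x, y, y', hxw, ⟨S, hS⟩, orb hy2, orb hy'2, orb hy'3, cov, F.two y hyt h7.1,
            F.two y' hyt' h7.2, ?_⟩
          obtain ⟨h8, h9⟩ := h7
          zify at h8 h9 ⊢
          linarith
        · -- (B)
          left
          push Not at hy'
          have cov : ∀ v : X, stabilizer G v ≠ ⊥ → v ∈ orbit G x ∨ v ∈ orbit G y := by
            intro v hv
            by_cases h : v ∈ orbit G x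
            · exact Or.inl h
            · exact Or.inr (hy' v hv h)
          refine ⟨x, y, hxw, ⟨S, hS⟩, orb hy2, cov, ?_⟩
          have h1 := (s2 x y (orb hy2)).2 cov
          rw [F.val, F.val, htot] at h1
          zify
          linarith
    · -- (A)
      left
      push Not at hy
      have hzx : z ∉ orbit G x := by
        rintro ⟨a, ha⟩
        apply hxnt
        rw [eq_bot_iff]
        intro s hs
        have h1 : a * s * a⁻¹ ∈ stabilizer G z := by
          rw [mem_stabilizer_iff] at hs ⊢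
          rw [← ha]
          simp only [mul_smul, inv_smul_smul]
          rw [hs]
        rw [hz, Subgroup.mem_bot] at h1
        have : s = 1 := by
          have h2 := congrArg (fun t => a⁻¹ * t * a) h1
          simpa [mul_assoc] using h2
        exact Subgroup.mem_bot.2 this
      refine ⟨x, z, hxw, ⟨S, hS⟩, orb hzx, fun v hv => Or.inl (hy v hv), ?_⟩
      have h1 := (s1 x).2 hy
      have hzt : R.P z = ⊥ := by
        by_contra h
        exact F.wild0 z h hz
      have hzo : oo G z = Nat.card G := by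
        have := (b4 G X).1 z
        rw [hz, Subgroup.card_bot, mul_one] at this
        exact this
      rw [F.val, htot] at h1
      rw [F.tame z hzt, hzo]
      zify
      linarith
  · -- tame
    push Not at hw
    right
    right
    have hlt : ∀ x, stabilizer G x ≠ ⊥ → (oo G x : ℤ) * f x < Nat.card G := by
      intro x hx
      rw [F.val, F.tame x (hw x)]
      have := F.opos x
      push_cast
      omega
    obtain ⟨y₁, h11⟩ : ∃ y : X, stabilizer G y ≠ ⊥ := by
      by_contra h
      push Not at h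
      have h1 := (s1 z).2 (fun v hv => absurd (h v) hv)
      have h3 : f z = 0 := by
        by_contra h
        exact F.z0 z h hz
      rw [h3] at h1
      linarith
    obtain ⟨y₂, h21, h22⟩ : ∃ y : X, stabilizer G y ≠ ⊥ ∧ y ∉ orbit G y₁ := by
      by_contra h
      push Not at h
      have h1 := (s1 y₁).2 h
      have h2 := hlt y₁ h11
      linarith
    obtain ⟨y₃, h31, h32, h33⟩ : ∃ y : X, stabilizer G y ≠ ⊥ ∧ y ∉ orbit G y₁ ∧ y ∉ orbit G y₂ := by
      by_contra h
      push Not at h
      have h1 := (s2 y₁ y₂ (orb h22)).2 (fun v hv => by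
        by_cases h' : v ∈ orbit G y₁
        · exact Or.inl h'
        · exact Or.inr (h v hv h'))
      have h2 := hlt y₁ h11
      have h3 := hlt y₂ h21
      linarith
    have cov : ∀ v : X, stabilizer G v ≠ ⊥ → v ∈ orbit G y₁ ∨ v ∈ orbit G y₂ ∨ v ∈ orbit G y₃ := by
      intro v hv
      by_contra hcon
      push Not at hcon
      have h4 := s4 y₁ y₂ y₃ v (orb h22) (orb h32) (orb h33) (orb hcon.1) (orb hcon.2.1)
        (orb hcon.2.2)
      have h5 : ∀ w : X, stabilizer G w ≠ ⊥ → w ∈ orbit G y₁ ∨ w ∈ orbit G y₂ ∨ w ∈ orbit G y₃ ∨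
          w ∈ orbit G v := by
        intro w hw'
        by_contra hcon'
        push Not at hcon'
        have h6 := s5 y₁ y₂ y₃ v w (orb h22) (orb h32) (orb h33) (orb hcon.1) (orb hcon.2.1)
          (orb hcon.2.2) (orb hcon'.1) (orb hcon'.2.1) (orb hcon'.2.2.1) (orb hcon'.2.2.2)
        have := nt _ h11
        have := nt _ h21
        have := nt _ h31
        have := nt _ hv
        have := nt _ hw'
        linarith
      have h6 := h4.2 h5
      rw [htot, F.val y₁, F.val y₂, F.val y₃, F.val v, F.tame _ (hw y₁), F.tame _ (hw y₂),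
        F.tame _ (hw y₃), F.tame _ (hw v)] at h6
      have k1 := F.tame2 _ (hw y₁) h11
      have k2 := F.tame2 _ (hw y₂) h21
      have k3 := F.tame2 _ (hw y₃) h31
      have k4 := F.tame2 _ (hw v) hv
      zify at k1 k2 k3 k4
      push_cast at h6
      have o1 := F.opos y₁
      have o2 := F.opos y₂
      have o3 := F.opos y₃
      have o4 := F.opos v
      zify at o1 o2 o3 o4
      omega
    have htame : ¬ 3 ∣ Nat.card G := by
      intro h3
      obtain ⟨S⟩ : Nonempty (Sylow 3 G) := inferInstance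
      have hS : (S : Subgroup G) ≠ ⊥ := by
        intro hS
        have : ¬ 3 ∣ (S : Subgroup G).index := S.not_dvd_index
        rw [hS, Subgroup.index_bot] at this
        exact this h3
      obtain ⟨_, x, x', _, hx, _, ⟨s, hs, hs1, _⟩, _⟩ := f1 k G X l R S hl.mod3 S.isPGroup' hS
      rw [hw x] at hs
      exact hs1 (Subgroup.mem_bot.1 hs)
    have c2 : ∀ y : X, stabilizer G y ≠ ⊥ → 2 ≤ Nat.card (stabilizer G y) := by
      intro y hy
      have h1 : Nat.card (stabilizer G y) ≠ 1 := fun h => hy (Subgroup.card_eq_one.1 h)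
      have h2 : 0 < Nat.card (stabilizer G y) := Nat.card_pos
      omega
    refine ⟨y₁, y₂, y₃, htame, orb h22, orb h32, orb h33, cov, c2 _ h11, c2 _ h21, c2 _ h31, ?_⟩
    have h1 := (s3 y₁ y₂ y₃ (orb h22) (orb h32) (orb h33)).2 cov
    rw [htot, F.val y₁, F.val y₂, F.val y₃, F.tame _ (hw y₁), F.tame _ (hw y₂),
        F.tame _ (hw y₃)] at h1
    zify
    push_cast at h1
    linarith

end Pool.Agent.helper75.AU
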